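import Pool.Agent.U152.FS.Main

/-!
# Fine Selmer groups with finite coefficients: reduction to class groups of fields with a real place and
of CM fields

Let `p` be an odd prime. By Nakayama's lemma and Poitou-Tate duality, Q1 for `T` and `L` means that the
orders of the fine Selmer groups of the finite module `A = Hom(T / π, μ_p)` over the layers of `L_∞ / L` are
bounded. Here we consider arbitrary finite `𝔽_p[G_K]`-modules `A` (also with `L = K`) and the continuous
cocycles on `G_{K R}` (`R` a layer of the cyclotomic extension of `ℚ`) whose restrictions to the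
decomposition groups above the finite set `S` of prime numbers and to all the inertia groups are
coboundaries. We prove:

1. Let `0 = M_0, M_1, …, M_r = A` be submodules and let `u_i` be functionals such that
   `M_i` contains all the `a ∈ M_{i + 1}` with `u_i (g a) = 0` for all `g ∈ G_K` (for instance a composition
   series, and any `u_i ≠ 0` on `M_{i + 1} / M_i`). Let `K_i` be the field fixed by the stabilizer of the
   functional `u_i` on `M_{i + 1}` in `G_K`. If the orders of the class groups modulo `p` and modulo the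
   classes of the primes above `S` are bounded in the layers of the cyclotomic extensions of all `K_i`,
   then the fine Selmer groups of `A` are bounded.
2. If `K` is totally real, there are at most `dim A` extension fields `F` of `K` with `[F : K] < |A|`, each of which has a
   real place or is a CM field of degree prime to `p` over `K`, such that for all `S` the boundedness of
   these class groups for the fields `F` implies the boundedness of the fine Selmer groups of `A`.
3. The fine Selmer groups are bounded for all `K`, `A` and `S ∋ p` if and only if the class groups modulo `p` and the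
   primes above `p` are bounded in the cyclotomic extensions of the number fields with a real place and of the
   CM fields of degree prime to `p`.

Proof. (1) For a cocycle `z` with values in `M_{i + 1}` and `h ∈ G_K` the map `x ↦ u_i (h z(h⁻¹ x h))` is a
homomorphism on the stabilizer of `u_i` which vanishes on the local groups, apart from a bounded number of
places where it vanishes on subgroups of bounded index. If all these homomorphisms and the values at
representatives of `G_K / V` are given, where `V` acts trivially, then `z` is determined up to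
cocycles with values in `M_i`. (2) A complex conjugation fixes a functional `u ≠ 0` on `M_{i + 1} / M_i`, or all
complex conjugations act by `- 1`; in the second case we take `u` fixed by a Sylow subgroup. (3) Simple
modules of the Galois group of a normal closure, as for the full class groups in
`MP_a4986b_nt.RealOrCM`.

The statement is formulated with predicates on the elements of the absolute Galois group `GQ` of `ℚ`;
cocycles on a subgroup are extended by `0` to functions on `GQ`.
-/

set_option autoImplicit false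

namespace Pool.Agent.Results.MP_519cc8_nt.FineRealOrCM

open Subgroup Module IntermediateField
open scoped ComplexConjugate

open Pool.Agent.Q60.MU (Qb)

/-- The absolute Galois group of `ℚ`. -/
def GQ : Type := Gal(Qb/ℚ)

noncomputable instance : Group GQ := inferInstanceAs (Group Gal(Qb/ℚ))

/-- The action on the algebraic numbers. -/
noncomputable def GQ.app (g : GQ) (x : Qb) : Qb := (show Gal(Qb/ℚ) from g) x

/-- `K` is a number field. -/
def NumberF (K : IntermediateField ℚ Qb) : Prop := FiniteDimensional ℚ K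

/-- The degree of `K` over `ℚ`. -/
noncomputable def deg (K : IntermediateField ℚ Qb) : ℕ := finrank ℚ K

/-- `g` is in the absolute Galois group `G_K` of `K`. -/
def Fix (K : IntermediateField ℚ Qb) (g : GQ) : Prop := ∀ x ∈ K, g.app x = x

/-- `R` is the `m`-th layer of the cyclotomic `ℤ_p`-extension of `ℚ` (`p` odd): `[R : ℚ] = p ^ m`, and `R` is
contained in a field generated by roots of unity of `p`-power order. -/
def Layer (p m : ℕ) (R : IntermediateField ℚ Qb) : Prop :=
  deg R = p ^ m ∧ ∃ N : ℕ, R ≤ adjoin ℚ {z : Qb | z ^ p ^ N = 1}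

/-- All elements of `F` are real for some embedding. -/
def RealPlace (F : IntermediateField ℚ Qb) : Prop := ∃ φ : Qb →+* ℂ, ∀ x ∈ F, conj (φ x) = φ x

/-- `F` is a CM field: it has no real place, and the complex conjugation induces an automorphism
of `F` which does not depend on the embedding. -/
def CMField (F : IntermediateField ℚ Qb) : Prop :=
  ¬ RealPlace F ∧ ∀ x ∈ F, ∃ y ∈ F, ∀ φ : Qb →+* ℂ, φ y = conj (φ x)

/-- `S` is a finite set of prime numbers. -/
def PrimeSet (S : Set ℕ) : Prop := S.Finite ∧ ∀ ℓ ∈ S, ℓ.Prime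

/-- The valuation ring `w` lies above a prime number in `S`. -/
def Above (S : Set ℕ) (w : ValuationSubring Qb) : Prop := ∃ ℓ ∈ S, (ℓ : Qb) ∈ w.nonunits

/-- `g` is in the decomposition group of `w`. -/
def Decomp (w : ValuationSubring Qb) (g : GQ) : Prop := ∀ x, g.app x ∈ w ↔ x ∈ w

/-- `g` is in the inertia group of `w`. -/
def Inert (w : ValuationSubring Qb) (g : GQ) : Prop :=
  Decomp w g ∧ ∀ x ∈ w, g.app x - x ∈ w.nonunits

/-- `g` is in the local group at `w`: the decomposition group if `w` is above `S`, and the inertia group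
otherwise. -/
def Local (S : Set ℕ) (w : ValuationSubring Qb) (g : GQ) : Prop :=
  Decomp w g ∧ (Above S w ∨ Inert w g)

/-- `act` is a continuous action of `G_K` on the `𝔽_p`-vector space `A` (the values of `act g` for `g` not in
`G_K` play no role). -/
def IsModule (p : ℕ) (K : IntermediateField ℚ Qb) {A : Type} [AddCommGroup A] (act : GQ → A → A) :
    Prop :=
  (∀ a : A, p • a = 0) ∧ (∀ g, Fix K g → ∀ a b, act g (a + b) = act g a + act g b) ∧
    (∀ a, act 1 a = a) ∧ (∀ g h, Fix K g → Fix K h → ∀ a, act (g * h) a = act g (act h a)) ∧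
    ∃ N, NumberF N ∧ ∀ g, Fix K g → Fix N g → ∀ a, act g a = a

/-- The module is unramified outside `S`. -/
def UnramifiedOutside (S : Set ℕ) (K : IntermediateField ℚ Qb) {A : Type} (act : GQ → A → A) : Prop :=
  ∀ w, ¬ Above S w → ∀ g, Fix K g → Inert w g → ∀ a, act g a = a

/-- The functions on `GQ` which vanish outside of `G_{K R}` and on `G_{K R} ∩ G_N` for some number field `N`. -/
def Smooth (K R : IntermediateField ℚ Qb) {A : Type} [AddCommGroup A] (z : GQ → A) : Prop :=
  (∀ g, ¬ (Fix K g ∧ Fix R g) → z g = 0) ∧ ∃ N, NumberF N ∧ ∀ g, Fix N g → z g = 0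

/-- The fine Selmer cocycles for `A` over `K R`: the continuous cocycles `G_{K R} → A` (extended by zero)
whose restrictions to the decomposition groups of the primes above `S` and to the inertia groups of the
other primes are coboundaries. -/
def FineCocycles (S : Set ℕ) (K R : IntermediateField ℚ Qb) {A : Type} [AddCommGroup A]
    (act : GQ → A → A) : Set (GQ → A) :=
  {z | Smooth K R z ∧
    (∀ g h, Fix K g → Fix R g → Fix K h → Fix R h → z (g * h) = z g + act g (z h)) ∧
    ∀ w, ∃ a : A, ∀ g, Fix K g → Fix R g → Local S w g → z g = act g a - a}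

/-- The numbers of the fine Selmer cocycles over the layers of the cyclotomic `ℤ_p`-extension of `K` are
bounded. (The classes of the cocycles form the fine Selmer group, and there are at most `|A|`
coboundaries.) -/
def FineSelmerBounded (p : ℕ) (S : Set ℕ) (K : IntermediateField ℚ Qb) {A : Type} [AddCommGroup A]
    (act : GQ → A → A) : Prop :=
  ∃ C : ℕ, ∀ (m : ℕ) (R : IntermediateField ℚ Qb), Layer p m R →
    (FineCocycles S K R act).encard ≤ (C : ℕ∞)

/-- The continuous homomorphisms `G_{F R} → ℤ/p` (extended by zero) which are trivial on the decomposition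
groups of the primes above `S` and on the inertia groups of the other primes. By class field theory they
form the dual of `Cl / p`, `Cl` being the class group of `F R` modulo the classes of the primes above `S`. -/
def ClassHoms (p : ℕ) (S : Set ℕ) (F R : IntermediateField ℚ Qb) : Set (GQ → ZMod p) :=
  {h | Smooth F R h ∧ (∀ x y, Fix F x → Fix R x → Fix F y → Fix R y → h (x * y) = h x + h y) ∧
    ∀ w, ∀ x, Local S w x → h x = 0}

/-- Their numbers are bounded in the cyclotomic `ℤ_p`-extension of `F`. -/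
def ClassGroupsBounded (p : ℕ) (S : Set ℕ) (F : IntermediateField ℚ Qb) : Prop :=
  ∃ C : ℕ, ∀ (m : ℕ) (R : IntermediateField ℚ Qb), Layer p m R →
    (ClassHoms p S F R).encard ≤ (C : ℕ∞)

/-- `F` is the field of the functional `u` on the subgroup `M` of `A`: `G_F` is the group of all `g ∈ G_K`
with `u (g a) = u a` for all `a ∈ M`. -/
def IsFieldOf (K F : IntermediateField ℚ Qb) {p : ℕ} {A : Type} [AddCommGroup A] (act : GQ → A → A)
    (M : AddSubgroup A) (u : A →+ ZMod p) : Prop :=
  NumberF F ∧ ∀ g, Fix F g ↔ Fix K g ∧ ∀ a ∈ M, u (act g a) = u a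

/-- `M` is stable under `G_K`. -/
def IsStable (K : IntermediateField ℚ Qb) {A : Type} [AddCommGroup A] (act : GQ → A → A)
    (M : AddSubgroup A) : Prop := ∀ g, Fix K g → ∀ a ∈ M, act g a ∈ M

section bridge

open Pool.Agent.Q60.MU Pool.Agent.W5h77.MB Pool.Agent.U152.MU Pool.Agent.U152.FS
open scoped Pointwise

theorem fix_iff {K : IntermediateField ℚ Qb} {g : Gal(Qb/ℚ)} : Fix K g ↔ g ∈ K.fixingSubgroup :=
  (IntermediateField.mem_fixingSubgroup_iff K g).symm

theorem decomp_iff {w : ValuationSubring Qb} {g : Gal(Qb/ℚ)} :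
    Decomp w g ↔ g ∈ MulAction.stabilizer Gal(Qb/ℚ) w := by
  rw [MulAction.mem_stabilizer_iff]
  constructor
  · intro h
    ext x
    rw [ValuationSubring.mem_pointwise_smul_iff_inv_smul_mem]
    have h1 := h (g⁻¹ x)
    have h2 : g (g⁻¹ x) = x := by
      rw [← AlgEquiv.mul_apply, mul_inv_cancel, AlgEquiv.one_apply]
    have h3 : x ∈ w ↔ g⁻¹ x ∈ w := by
      have h4 : GQ.app g (g⁻¹ x) = x := h2
      rwa [h4] at h1
    exact h3.symm
  · intro h x
    have h1 : g x ∈ g • w ↔ x ∈ w := ValuationSubring.smul_mem_pointwise_smul_iff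
    rw [h] at h1
    exact h1

theorem inert_iff {w : ValuationSubring Qb} {g : Gal(Qb/ℚ)} : Inert w g ↔ g ∈ inertia w := by
  rw [mem_inertia]
  exact and_congr decomp_iff Iff.rfl

theorem local_iff {S : Set ℕ} {w : ValuationSubring Qb} {g : Gal(Qb/ℚ)} :
    Local S w g ↔ g ∈ loc S w := by
  by_cases h : ∃ ℓ ∈ S, (ℓ : Qb) ∈ w.nonunits
  · rw [loc_pos h]
    exact ⟨fun h1 => decomp_iff.1 h1.1, fun h1 => ⟨decomp_iff.2 h1, Or.inl h⟩⟩
  · rw [loc_neg h]
    constructor
    · rintro ⟨-, h1 | h1⟩
      · exact absurd h1 h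
      · exact inert_iff.1 h1
    · intro h1
      have h2 := inert_iff.2 h1
      exact ⟨h2.1, Or.inr h2⟩

theorem layer_iff {p m : ℕ} {R : IntermediateField ℚ Qb} : Layer p m R ↔ IsLayer p m R := Iff.rfl

theorem mem_inf' {K R : IntermediateField ℚ Qb} {g : Gal(Qb/ℚ)} :
    g ∈ K.fixingSubgroup ⊓ R.fixingSubgroup ↔ Fix K g ∧ Fix R g := by
  rw [Subgroup.mem_inf, fix_iff, fix_iff]

/-- From functions on `GQ` to functions on the subgroup. -/
theorem class_sub {p : ℕ} {S : Set ℕ} {F : IntermediateField ℚ Qb} (h : ClassGroupsBounded p S F) :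
    ClassBounded p S F := by
  classical
  obtain ⟨C, hC⟩ := h
  refine ⟨C, fun m R hR => le_trans ?_ (hC m R hR)⟩
  let e : (↥(F.fixingSubgroup ⊓ R.fixingSubgroup) → ZMod p) → (GQ → ZMod p) :=
    fun h g => if hg : (g : Gal(Qb/ℚ)) ∈ F.fixingSubgroup ⊓ R.fixingSubgroup then h ⟨g, hg⟩ else 0
  have he : ∀ (h : ↥(F.fixingSubgroup ⊓ R.fixingSubgroup) → ZMod p) (g : Gal(Qb/ℚ))
      (hg : g ∈ F.fixingSubgroup ⊓ R.fixingSubgroup), e h g = h ⟨g, hg⟩ := fun h g hg => dif_pos hg
  have he0 : ∀ (h : ↥(F.fixingSubgroup ⊓ R.fixingSubgroup) → ZMod p) (g : Gal(Qb/ℚ)),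
      g ∉ F.fixingSubgroup ⊓ R.fixingSubgroup → e h g = 0 := fun h g hg => dif_neg hg
  have hinj : Function.Injective e := by
    intro h h' hh
    funext x
    rw [← he h x x.2, ← he h' x x.2, hh]
  rw [← hinj.encard_image]
  refine Set.encard_le_encard ?_
  rintro _ ⟨h, ⟨h1, ⟨N, hN, h2⟩, h3⟩, rfl⟩
  refine ⟨⟨fun g hg => he0 h g fun h4 => hg (mem_inf'.1 h4), N, hN, fun g hg => ?_⟩, ?_, ?_⟩
  · by_cases h4 : (g : Gal(Qb/ℚ)) ∈ F.fixingSubgroup ⊓ R.fixingSubgroup
    · rw [he h g h4]
      exact h2 _ (fix_iff.1 hg)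
    · exact he0 h g h4
  · intro x y a b c d
    have hx := mem_inf'.2 ⟨a, b⟩
    have hy := mem_inf'.2 ⟨c, d⟩
    rw [he h x hx, he h y hy, ← h1]
    exact he h _ (Subgroup.mul_mem _ hx hy)
  · intro w x hx
    by_cases h4 : (x : Gal(Qb/ℚ)) ∈ F.fixingSubgroup ⊓ R.fixingSubgroup
    · rw [he h x h4]
      exact h3 w _ (local_iff.1 hx)
    · exact he0 h x h4

variable {p : ℕ} {K : IntermediateField ℚ Qb} {A : Type} [AddCommGroup A]

theorem exists_rho [hp : Fact p.Prime] [Finite A] {act : GQ → A → A} (h : IsModule p K act) :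
    ∃ (_ : Module (ZMod p) A) (ρ : Representation (ZMod p) K.fixingSubgroup A), Cont ρ ∧
      (∀ (g : Gal(Qb/ℚ)) (hg : g ∈ K.fixingSubgroup) (a : A), ρ ⟨g, hg⟩ a = act g a) ∧
      ∀ S, FineBounded S ρ → FineSelmerBounded p S K act := by
  obtain ⟨h1, h2, h3, h4, N, hN, h5⟩ := h
  obtain ⟨md, mf, ρ, hρ⟩ := rep_of_comm (p := p) h1 (D := K.fixingSubgroup)
    (fun g => AddMonoidHom.mk' (act g.1) (h2 g.1 (fix_iff.2 g.2))) (fun x => h3 x)
    (fun d e x => h4 d.1 e.1 (fix_iff.2 d.2) (fix_iff.2 e.2) x)
  have hρ' : ∀ (g : Gal(Qb/ℚ)) (hg : g ∈ K.fixingSubgroup) (a : A), ρ ⟨g, hg⟩ a = act g a :=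
    fun g hg a => hρ ⟨g, hg⟩ a
  refine ⟨md, ρ, ⟨N, hN, fun g hg => ?_⟩, hρ', ?_⟩
  · apply LinearMap.ext
    intro a
    have h6 := hρ' g.1 g.2 a
    exact h6.trans (h5 g.1 (fix_iff.2 g.2) (fix_iff.2 hg) a)
  · rintro S ⟨C, hC⟩
    refine ⟨C, fun m R hR => le_trans ?_ (hC m R hR)⟩
    let r : (GQ → A) → (↥(K.fixingSubgroup ⊓ R.fixingSubgroup) → A) := fun z g => z g.1
    have hinj : Set.InjOn r (FineCocycles S K R act) := by
      intro z hz z' hz' hr
      funext g
      by_cases hg : Fix K g ∧ Fix R g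
      · exact congrFun hr ⟨g, mem_inf'.2 hg⟩
      · rw [hz.1.1 g hg, hz'.1.1 g hg]
    rw [← hinj.encard_image]
    refine Set.encard_le_encard ?_
    rintro _ ⟨z, ⟨⟨-, N', hN', z1⟩, z2, z3⟩, rfl⟩
    refine ⟨fun g h => ?_, ⟨N', hN', fun g hg => z1 g.1 (fix_iff.2 hg)⟩, fun w => ?_⟩
    · show z (g.1 * h.1) = z g.1 + ρ ⟨g.1, g.2.1⟩ (z h.1)
      rw [hρ']
      exact z2 g.1 h.1 (fix_iff.2 g.2.1) (fix_iff.2 g.2.2) (fix_iff.2 h.2.1) (fix_iff.2 h.2.2)
    · obtain ⟨a, ha⟩ := z3 w
      refine ⟨a, fun g hg => ?_⟩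
      show z g.1 = ρ ⟨g.1, g.2.1⟩ a - a
      rw [hρ']
      exact ha g.1 (fix_iff.2 g.2.1) (fix_iff.2 g.2.2) (local_iff.2 hg)

end bridge

open Pool.Agent.Q60.MU Pool.Agent.W5h77.MB Pool.Agent.U152.MU Pool.Agent.U152.FS in
/-- **Fine Selmer groups of finite modules and class groups.** -/
theorem result (p : ℕ) (hp : p.Prime) (hp2 : p ≠ 2) :
    -- (1) one module, any `K`
    (∀ (K : IntermediateField ℚ Qb) (A : Type) [AddCommGroup A] [Finite A] (act : GQ → A → A)
      (S : Set ℕ), NumberF K → IsModule p K act → PrimeSet S →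
      ∀ (r : ℕ) (M : ℕ → AddSubgroup A) (u : ℕ → A →+ ZMod p) (F : ℕ → IntermediateField ℚ Qb),
        M 0 = ⊥ → M r = ⊤ →
        (∀ i < r, IsStable K act (M i) ∧
          (∀ a ∈ M (i + 1), (∀ g, Fix K g → u i (act g a) = 0) → a ∈ M i) ∧
          IsFieldOf K (F i) act (M (i + 1)) (u i) ∧ ClassGroupsBounded p S (F i)) →
        FineSelmerBounded p S K act) ∧
    -- (2) one module, `K` totally real
    (∀ (K : IntermediateField ℚ Qb) (A : Type) [AddCommGroup A] [Finite A] (act : GQ → A → A),
      NumberF K → (∀ φ : Qb →+* ℂ, ∀ x ∈ K, conj (φ x) = φ x) → IsModule p K act →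
      ∃ 𝓕 : Finset (IntermediateField ℚ Qb), p ^ 𝓕.card ≤ Nat.card A ∧
        (∀ F ∈ 𝓕, K ≤ F ∧ ∃ n < Nat.card A, deg F = n * deg K ∧
          (RealPlace F ∨ (CMField F ∧ ¬ p ∣ n))) ∧
        ∀ S : Set ℕ, PrimeSet S → (∀ F ∈ 𝓕, ClassGroupsBounded p S F) →
          FineSelmerBounded p S K act) ∧
    -- (3) all modules
    ((∀ (K : IntermediateField ℚ Qb) (A : Type) [AddCommGroup A] [Finite A] (act : GQ → A → A)
        (S : Set ℕ), NumberF K → IsModule p K act → PrimeSet S → p ∈ S →
        UnramifiedOutside S K act → FineSelmerBounded p S K act) ↔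
      ∀ F : IntermediateField ℚ Qb, NumberF F →
        (RealPlace F ∨ (CMField F ∧ ¬ p ∣ deg F)) → ClassGroupsBounded p {p} F) := by
  have hpf : Fact p.Prime := ⟨hp⟩
  obtain ⟨r1, r2, r3⟩ := Pool.Agent.U152.FS.main p hp2
  refine ⟨?_, ?_, ?_, ?_⟩
  · intro K A _ _ act S hK hA hS r M u F h0 hr h
    obtain ⟨md, ρ, hc, hρ, hb⟩ := exists_rho hA
    apply hb S
    have hst : ∀ i ≤ r, IsStable K act (M i) := by
      intro i hi
      rcases hi.lt_or_eq with h1 | rfl
      · exact (h i h1).1
      · intro g _ a _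
        rw [hr]
        trivial
    let M' : ℕ → Submodule (ZMod p) A := fun i =>
      if i ≤ r then AddSubgroup.toZModSubmodule p (M i) else ⊤
    have hM' : ∀ i ≤ r, ∀ a, a ∈ M' i ↔ a ∈ M i := by
      intro i hi a
      show a ∈ (if i ≤ r then AddSubgroup.toZModSubmodule p (M i) else ⊤) ↔ _
      rw [if_pos hi]
      exact AddSubgroup.mem_toZModSubmodule p
    have hinv : ∀ i, Inv ρ (M' i) := by
      intro i g a ha
      by_cases hi : i ≤ r
      · rw [hM' i hi] at ha ⊢
        have h1 := hst i hi g.1 (fix_iff.2 g.2) a ha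
        rw [← hρ g.1 g.2] at h1
        exact h1
      · show _ ∈ (if i ≤ r then AddSubgroup.toZModSubmodule p (M i) else ⊤)
        rw [if_neg hi]
        trivial
    refine r1 K A ρ S hK hc hS r M' hinv (fun i => (u i).toZModLinearMap p) ?_ ?_ fun i hi => ⟨?_, ?_⟩
    · ext a
      rw [hM' 0 (Nat.zero_le r), h0, AddSubgroup.mem_bot, Submodule.mem_bot]
    · ext a
      rw [hM' r le_rfl, hr]
      simp
    · intro a ha hg
      rw [hM' _ hi] at ha
      rw [hM' _ hi.le]
      refine (h i hi).2.1 a ha fun g hgK => ?_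
      rw [← hρ g (fix_iff.1 hgK)]
      exact hg ⟨g, fix_iff.1 hgK⟩
    · obtain ⟨-, -, ⟨hFn, hF⟩, hcl⟩ := h i hi
      have hFf : FiniteDimensional ℚ (F i) := hFn
      have e1 : (F i).fixingSubgroup = stabF ρ (hinv (i + 1)) ((u i).toZModLinearMap p) := by
        ext g
        rw [← fix_iff, hF g]
        constructor
        · rintro ⟨h1, h2⟩
          refine ⟨fix_iff.1 h1, fun a ha => ?_⟩
          rw [hM' _ hi] at ha
          rw [hρ g (fix_iff.1 h1)]
          exact h2 a ha
        · rintro ⟨h1, h2⟩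
          refine ⟨fix_iff.2 h1, fun a ha => ?_⟩
          have h3 := h2 a ((hM' _ hi a).2 ha)
          rw [hρ g h1] at h3
          exact h3
      have e2 : FieldOf ρ (hinv (i + 1)) ((u i).toZModLinearMap p) = F i := by
        unfold FieldOf
        rw [← e1]
        exact InfiniteGalois.fixedField_fixingSubgroup (F i)
      rw [e2]
      exact class_sub hcl
  · intro K A _ _ act hK hreal hA
    obtain ⟨md, ρ, hc, hρ, hb⟩ := exists_rho hA
    obtain ⟨𝓕, h1, h2, h3⟩ := r2 K A ρ hK hc hreal
    have hfA : Module.Finite (ZMod p) A := Module.Finite.of_finite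
    refine ⟨𝓕, ?_, h2, fun S hS h => hb S (h3 S hS fun F hF => class_sub (h F hF))⟩
    have h4 := Module.natCard_eq_pow_finrank (K := ZMod p) (V := A)
    rw [Nat.card_zmod] at h4
    rw [h4]
    exact Nat.pow_le_pow_right hp.pos h1
  · intro h F hF _
    obtain ⟨C, hC⟩ := h F (ZMod p) (fun _ a => a) {p} hF
      ⟨fun a => by rw [nsmul_eq_mul, ZMod.natCast_self, zero_mul], fun _ _ _ _ => rfl, fun _ => rfl,
        fun _ _ _ _ _ => rfl, F, hF, fun _ _ _ _ => rfl⟩
      ⟨Set.finite_singleton p, fun ℓ hℓ => by rw [Set.mem_singleton_iff.1 hℓ]; exact hp⟩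
      (Set.mem_singleton p) (fun _ _ _ _ _ _ => rfl)
    refine ⟨C, fun m R hR => le_trans (Set.encard_le_encard ?_) (hC m R hR)⟩
    rintro h ⟨h1, h2, h3⟩
    exact ⟨h1, h2, fun w => ⟨0, fun g _ _ hg => by rw [h3 w g hg, sub_zero]⟩⟩
  · intro h K A _ _ act S hK hA hS hpS hur
    obtain ⟨md, ρ, hc, hρ, hb⟩ := exists_rho hA
    apply hb S
    refine r3.2 (fun F hF hF1 => class_sub (h F hF hF1)) K A ρ S hK hc hS hpS ?_
    intro w hw g hg
    apply LinearMap.ext
    intro a
    have h1 := hρ g.1 g.2 a
    exact h1.trans (hur w hw g.1 (fix_iff.2 g.2) (inert_iff.2 hg) a)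

end Pool.Agent.Results.MP_519cc8_nt.FineRealOrCM
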