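import Pool.Agent.U152.FM.Fld
import Pool.Agent.Results.MP_519cc8_nt.FineRealOrCM

/-!
# Fine Selmer groups of one module over all number fields

Let `p` be an odd prime, `K₀` a totally real number field (for instance `K₀ = ℚ`), `A` a finite
`𝔽_p[G_{K₀}]`-module (for instance `A = E[p]`, `E` an elliptic curve over `K₀`) and `S` a finite set of
prime numbers. `FineCocycles S F R act` (defined in `MP_519cc8_nt.FineRealOrCM`) is the set of the fine Selmer
cocycles of `A` over the field `F R`, where `R` is a layer of the cyclotomic `ℤ_p`-extension of `ℚ`; its number is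
the order of the fine Selmer group of `A` over `F R` times the number of the coboundaries, which is at most
`|A|`. For a number field `F` containing `K₀` and
the complex conjugation `c` of an embedding `φ` let `F_c = (F · c F) ∩ ℝ`, a number field with a real place
which contains `K₀`. Let `E ≤ F` be the subfield of `F` on which all the complex conjugations agree (the
largest subfield of `F` which is totally real or a CM field). We prove:

1. There are finitely many complex conjugations `c_1, …, c_n` and a constant `C` such that for all layers `R`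
   the number of the Selmer cocycles over `F R` is at most `C` times the number of those over `E R` times
   the product of the numbers of those over the fields `F_{c_i} R`.
2. If the fine Selmer groups are bounded over the layers for all the fields `F_c`, they are bounded for `F` if
   and only if they are bounded for the CM fields between `K₀` and `F`.
3. Let `d ≥ 3`. If the fine Selmer groups of `A` are bounded for the fields `E ⊇ K₀` with a real place of
   degree `[E : K₀] ≤ d (d - 1) / 2` and for the CM fields `E ⊇ K₀` of degree `[E : K₀] ≤ d`, then they are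
   bounded for all number fields `F ⊇ K₀` of degree `[F : K₀] ≤ d`.

Proof. Let `N` be a normal open subgroup of `G_ℚ` in `G_F` which acts trivially on `A`, and let `G` be the
absolute Galois group of the layer `R`. The restriction of a Selmer cocycle on `G_F ∩ G` to `N ∩ G` is a
homomorphism `h : N ∩ G → A` which is unramified and `G_F ∩ G`-equivariant. For a complex conjugation `c` the
homomorphism `n ↦ h(n) + c h(c⁻¹ n c)` is equivariant for `(G_F ∩ c G_F c⁻¹) ⟨c⟩ ∩ G`, the absolute Galois group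
of `F_c R`. If it is zero for all `c` then `h` is invariant under the products of two complex
conjugations, hence equivariant for the absolute Galois group of `E R`. An equivariant homomorphism comes
from a cocycle up to a bounded number of possibilities (the factor set), and the local conditions at the
bounded number of places which ramify in the field of `N` or lie above `S` cost a bounded factor.
-/

set_option autoImplicit false

namespace Pool.Agent.Results.MP_519cc8_nt.OneModuleAllFields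

open Module IntermediateField
open Pool.Agent.Q60.MU (Qb)
open Pool.Agent.Results.MP_519cc8_nt.FineRealOrCM
open scoped ComplexConjugate

/-- `F` is totally real: its elements are real for all embeddings. -/
def TotallyReal (F : IntermediateField ℚ Qb) : Prop := ∀ φ : Qb →+* ℂ, ∀ x ∈ F, conj (φ x) = φ x

/-- `c` is the complex conjugation of the field of the algebraic numbers for the embedding `φ`. -/
def IsConj (φ : Qb →+* ℂ) (c : GQ) : Prop := ∀ x, φ (c.app x) = conj (φ x)

/-- All the complex conjugations agree on `x`. -/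
def Agree (x : Qb) : Prop :=
  ∀ (φ ψ : Qb →+* ℂ) (c d : GQ), IsConj φ c → IsConj ψ d → c.app x = d.app x

/-- `X` is the field `F_c = (F · c F) ∩ ℝ`, where `c` is the complex conjugation for the embedding `φ`. -/
def IsRealPart (F : IntermediateField ℚ Qb) (φ : Qb →+* ℂ) (c : GQ) (X : IntermediateField ℚ Qb) :
    Prop :=
  IsConj φ c ∧
    ∀ x, x ∈ X ↔ x ∈ adjoin ℚ {y : Qb | y ∈ F ∨ ∃ z ∈ F, y = c.app z} ∧ conj (φ x) = φ x

section bridge

open Pool.Agent.Q60.MU Pool.Agent.W5h77.MB Pool.Agent.U152.MU Pool.Agent.U152.FS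
open Pool.Agent.U152.EF Pool.Agent.U152.FM

variable {p : ℕ} {K₀ : IntermediateField ℚ Qb} {A : Type} [AddCommGroup A] {act : GQ → A → A}

theorem isAct (h : IsModule p K₀ act) :
    IsAct (𝔾 := Gal(Qb/ℚ)) K₀.fixingSubgroup act := by
  obtain ⟨-, h2, h3, h4, -⟩ := h
  exact ⟨fun g hg h hh a => h4 g h (fix_iff.2 hg) (fix_iff.2 hh) a, h3,
    fun g hg a b => h2 g (fix_iff.2 hg) a b⟩

theorem card_eq (S : Set ℕ) (F R : IntermediateField ℚ Qb) :
    (FineCocycles S F R act).encard =
      (Se (𝔾 := Gal(Qb/ℚ)) act (loc S) (F.fixingSubgroup ⊓ R.fixingSubgroup)).encard := by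
  classical
  let r : (GQ → A) → (↥(F.fixingSubgroup ⊓ R.fixingSubgroup) → A) := fun z g => z g.1
  have hinj : Set.InjOn r (FineCocycles S F R act) := by
    intro z hz z' hz' hr
    funext g
    by_cases hg : Fix F g ∧ Fix R g
    · exact congrFun hr ⟨g, mem_inf'.2 hg⟩
    · rw [hz.1.1 g hg, hz'.1.1 g hg]
  have himg : r '' FineCocycles S F R act =
      Se (𝔾 := Gal(Qb/ℚ)) act (loc S) (F.fixingSubgroup ⊓ R.fixingSubgroup) := by
    ext z
    constructor
    · rintro ⟨z, ⟨⟨-, N', hN', z1⟩, z2, z3⟩, rfl⟩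
      have hN'f : FiniteDimensional ℚ N' := hN'
      refine ⟨fun g h => ?_, ⟨N'.fixingSubgroup, big_fix N', fun g hg => z1 g.1 (fix_iff.2 hg)⟩,
        fun w => ?_⟩
      · exact z2 g.1 h.1 (fix_iff.2 g.2.1) (fix_iff.2 g.2.2) (fix_iff.2 h.2.1) (fix_iff.2 h.2.2)
      · obtain ⟨a, ha⟩ := z3 w
        exact ⟨a, fun g hg => ha g.1 (fix_iff.2 g.2.1) (fix_iff.2 g.2.2) (local_iff.2 hg)⟩
    · rintro ⟨z2, ⟨N', hN', z1⟩, z3⟩
      obtain ⟨M, hM, hMN⟩ := big_iff.1 hN'
      let e : GQ → A := fun g =>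
        if hg : (g : Gal(Qb/ℚ)) ∈ F.fixingSubgroup ⊓ R.fixingSubgroup then z ⟨g, hg⟩ else 0
      have he : ∀ (g : Gal(Qb/ℚ)) (hg : g ∈ F.fixingSubgroup ⊓ R.fixingSubgroup), e g = z ⟨g, hg⟩ :=
        fun g hg => dif_pos hg
      have he0 : ∀ g : Gal(Qb/ℚ), g ∉ F.fixingSubgroup ⊓ R.fixingSubgroup → e g = 0 :=
        fun g hg => dif_neg hg
      refine ⟨e, ⟨⟨fun g hg => he0 g fun h4 => hg (mem_inf'.1 h4), M, hM, fun g hg => ?_⟩, ?_, ?_⟩, ?_⟩
      · by_cases h4 : (g : Gal(Qb/ℚ)) ∈ F.fixingSubgroup ⊓ R.fixingSubgroup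
        · rw [he g h4]
          exact z1 _ (hMN (fix_iff.1 hg))
        · exact he0 g h4
      · intro g h a b c d
        have hx := mem_inf'.2 ⟨a, b⟩
        have hy := mem_inf'.2 ⟨c, d⟩
        rw [he g hx, he h hy]
        exact (he _ (Subgroup.mul_mem _ hx hy)).trans (z2 ⟨g, hx⟩ ⟨h, hy⟩)
      · intro w
        obtain ⟨a, ha⟩ := z3 w
        refine ⟨a, fun g h1 h2 hg => ?_⟩
        rw [he g (mem_inf'.2 ⟨h1, h2⟩)]
        exact ha ⟨g, mem_inf'.2 ⟨h1, h2⟩⟩ (local_iff.1 hg)
      · funext g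
        exact he g.1 g.2
  rw [← himg, hinj.encard_image]

theorem bounded_iff {S : Set ℕ} {F : IntermediateField ℚ Qb} :
    FineSelmerBounded p S F act ↔ SB p S (fun g => act g) F.fixingSubgroup := by
  constructor
  · rintro ⟨C, hC⟩
    refine ⟨C, ?_⟩
    rintro R ⟨m, hR⟩
    exact (card_eq S F R).ge.trans (hC m R hR)
  · rintro ⟨C, hC⟩
    exact ⟨C, fun m R hR => (card_eq S F R).le.trans (hC R ⟨m, hR⟩)⟩

theorem realPart_iff {F X : IntermediateField ℚ Qb} {φ : Qb →+* ℂ} {c : GQ} :
    IsRealPart F φ c X ↔ IsConj φ c ∧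
      X = (F ⊔ F.map (show Gal(Qb/ℚ) from c).toAlgHom) ⊓ realSub φ := by
  refine and_congr_right fun _ => ?_
  have h1 : adjoin ℚ {y : Qb | y ∈ F ∨ ∃ z ∈ F, y = c.app z} =
      F ⊔ F.map (show Gal(Qb/ℚ) from c).toAlgHom := by
    apply le_antisymm
    · rw [adjoin_le_iff]
      rintro y (hy | ⟨z, hz, rfl⟩)
      · exact (le_sup_left : F ≤ _) hy
      · exact (le_sup_right : F.map (show Gal(Qb/ℚ) from c).toAlgHom ≤ _) ⟨z, hz, rfl⟩
    · refine sup_le (fun y hy => subset_adjoin _ _ (Or.inl hy)) ?_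
      rintro _ ⟨z, hz, rfl⟩
      exact subset_adjoin _ _ (Or.inr ⟨z, hz, rfl⟩)
  constructor
  · intro h
    ext x
    rw [h x, h1, IntermediateField.mem_inf, mem_realSub]
  · intro h x
    rw [h, h1, IntermediateField.mem_inf, mem_realSub]

end bridge

theorem enat_ne_top {n : ℕ} {b : Fin n → ℕ∞} {a C : ℕ∞} (hb : ∀ i, b i ≠ 0) (ha : a ≠ 0)
    (hC : C ≠ 0) (h : C * a * ∏ i, b i ≠ ⊤) : a ≠ ⊤ ∧ ∀ i, b i ≠ ⊤ := by
  have hprod : ∏ i, b i ≠ 0 := Finset.prod_ne_zero_iff.2 fun i _ => hb i
  constructor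
  · rintro rfl
    apply h
    rw [ENat.mul_top hC, ENat.top_mul hprod]
  · intro i hi
    apply h
    rw [← Finset.mul_prod_erase Finset.univ b (Finset.mem_univ i), hi,
      ENat.top_mul (Finset.prod_ne_zero_iff.2 fun j _ => hb j), ENat.mul_top (mul_ne_zero hC ha)]

open Pool.Agent.Q60.MU Pool.Agent.W5h77.MB Pool.Agent.U152.MU Pool.Agent.U152.FS
  Pool.Agent.U152.EF Pool.Agent.U152.FM in
/-- **Fine Selmer groups of one module over all number fields.** -/
theorem result (p : ℕ) (hp : p.Prime) (hp2 : p ≠ 2) (K₀ : IntermediateField ℚ Qb)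
    (hK₀n : NumberF K₀) (hK₀ : TotallyReal K₀) (A : Type) [AddCommGroup A] [Finite A]
    (act : GQ → A → A) (hA : IsModule p K₀ act) (S : Set ℕ) (hS : PrimeSet S) :
    -- (1) the inequality
    (∀ F E : IntermediateField ℚ Qb, NumberF F → K₀ ≤ F → (∀ x, x ∈ E ↔ x ∈ F ∧ Agree x) →
      ∃ (n : ℕ) (φ : Fin n → (Qb →+* ℂ)) (c : Fin n → GQ) (X : Fin n → IntermediateField ℚ Qb),
        (∀ i, IsRealPart F (φ i) (c i) (X i)) ∧
        ∃ C : ℕ, ∀ (m : ℕ) (R : IntermediateField ℚ Qb), Layer p m R →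
          (FineCocycles S F R act).encard ≤
            (C : ℕ∞) * (FineCocycles S E R act).encard * ∏ i, (FineCocycles S (X i) R act).encard) ∧
    -- (2) boundedness for one field
    (∀ F : IntermediateField ℚ Qb, NumberF F → K₀ ≤ F →
      (∀ φ c X, IsRealPart F φ c X → FineSelmerBounded p S X act) →
      (FineSelmerBounded p S F act ↔ ∀ E, K₀ ≤ E → E ≤ F → CMField E → FineSelmerBounded p S E act)) ∧
    -- (3) boundedness for all the fields of bounded degree over `K₀`
    ∀ d : ℕ, 3 ≤ d →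
      (∀ E, NumberF E → K₀ ≤ E →
        (RealPlace E ∧ 2 * deg E ≤ d * (d - 1) * deg K₀ ∨ CMField E ∧ deg E ≤ d * deg K₀) →
          FineSelmerBounded p S E act) →
      ∀ F, NumberF F → K₀ ≤ F → deg F ≤ d * deg K₀ → FineSelmerBounded p S F act := by
  classical
  have hpf : Fact p.Prime := ⟨hp⟩
  have hr := isAct hA
  obtain ⟨-, -, -, -, N, hN, hNt⟩ := hA
  have hNf : FiniteDimensional ℚ N := hN
  have hK₀f : FiniteDimensional ℚ K₀ := hK₀n
  have hV : Big (K₀.fixingSubgroup ⊓ N.fixingSubgroup) := (big_fix K₀).inf (big_fix N)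
  have htriv : ∀ n ∈ K₀.fixingSubgroup ⊓ N.fixingSubgroup, ∀ a, act n a = a :=
    fun n hn => hNt n (fix_iff.2 hn.1) (fix_iff.2 hn.2)
  have hfd : ∀ E F : IntermediateField ℚ Qb, FiniteDimensional ℚ F → E ≤ F → FiniteDimensional ℚ E :=
    fun E F _ hE => Submodule.finiteDimensional_of_le (S₁ := Subalgebra.toSubmodule E.toSubalgebra)
      (S₂ := Subalgebra.toSubmodule F.toSubalgebra) hE
  have hKreal : ∀ φ : Qb →+* ℂ, K₀ ≤ realSub φ := fun φ x hx => mem_realSub.2 (hK₀ φ x hx)
  have hmono : ∀ E F : IntermediateField ℚ Qb, FiniteDimensional ℚ F → E ≤ F →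
      (K₀ ≤ F → SB p S (fun g => act g) F.fixingSubgroup) → K₀ ≤ E →
        SB p S (fun g => act g) E.fixingSubgroup :=
    fun E F hF hEF h hKE => sb_mono hr hF hKE hEF (h (hKE.trans hEF))
  have hstep := sb_step (p := p) (S := S) hp2 hr hS hK₀ hV htriv
  refine ⟨fun F E hF hKF hE => ?_, fun F hF hKF h => ⟨fun h1 E hKE hE _ => ?_, fun h1 => ?_⟩,
    fun d hd h F hF hKF hFd => ?_⟩
  · have hFf : FiniteDimensional ℚ F := hF
    obtain ⟨ι⟩ := exists_iota
    obtain ⟨c, hc, hcc⟩ := exists_conj ι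
    obtain ⟨n, φ, γ, hγ, C, hC⟩ := fld_le (p := p) (S := S) hp2 hr hS hK₀ hV htriv hF hKF hc hcc
    refine ⟨n, φ, γ, fun i => (F ⊔ F.map (γ i).toAlgHom) ⊓ realSub (φ i),
      fun i => realPart_iff.2 ⟨hγ i, rfl⟩, C + 1, fun m R hR => ?_⟩
    have hEfix : E = fixedField (F.fixingSubgroup ⊔ Pool.Agent.X310.Mu.comms c) := by
      ext x
      rw [hE x]
      exact (agree_iff hF hc hcc x).symm
    have hWo : IsOpen ((F.fixingSubgroup ⊔ Pool.Agent.X310.Mu.comms c : Subgroup Gal(Qb/ℚ)) :
        Set Gal(Qb/ℚ)) := Subgroup.isOpen_mono le_sup_left F.fixingSubgroup_isOpen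
    have hEf : E.fixingSubgroup = F.fixingSubgroup ⊔ Pool.Agent.X310.Mu.comms c := by
      rw [hEfix, fix_fixed hWo]
    have hKE : K₀ ≤ E := by
      intro x hx
      rw [hE x]
      refine ⟨hKF hx, fun φ ψ d e hd he => ?_⟩
      have h1 : ∀ (φ : Qb →+* ℂ) (d : GQ), IsConj φ d → d.app x = x := by
        intro φ d hd
        apply φ.injective
        rw [hd x, hK₀ φ x hx]
      rw [h1 φ d hd, h1 ψ e he]
    rw [card_eq S F R, card_eq S E R]
    rw [Finset.prod_congr rfl fun i _ => card_eq S ((F ⊔ F.map (γ i).toAlgHom) ⊓ realSub (φ i)) R]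
    have hRf := (lay_layers hp R ⟨m, hR⟩).1
    have hz : ∀ X : IntermediateField ℚ Qb, FiniteDimensional ℚ X → K₀ ≤ X →
        (Se (𝔾 := Gal(Qb/ℚ)) act (loc S) (X.fixingSubgroup ⊓ R.fixingSubgroup)).encard ≠ 0 := by
      intro X hX hKX
      rw [Set.encard_ne_zero]
      exact ⟨0, Se.zero_mem hr (inf_le_left.trans (fixingSubgroup_le hKX))
        ((big_fix X).inf (big_fix R))⟩
    have hEfd : FiniteDimensional ℚ E := hfd E F hF fun x hx => ((hE x).1 hx).1
    by_cases htop : ((C + 1 : ℕ) : ℕ∞) *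
        (Se (𝔾 := Gal(Qb/ℚ)) act (loc S) (E.fixingSubgroup ⊓ R.fixingSubgroup)).encard *
        ∏ i, (Se (𝔾 := Gal(Qb/ℚ)) act (loc S)
          (((F ⊔ F.map (γ i).toAlgHom) ⊓ realSub (φ i)).fixingSubgroup ⊓ R.fixingSubgroup)).encard = ⊤
    · rw [htop]
      exact le_top
    · obtain ⟨h3, h4⟩ := enat_ne_top
        (fun i => hz ((F ⊔ F.map (γ i).toAlgHom) ⊓ realSub (φ i)) inferInstance
          (le_inf (hKF.trans le_sup_left) (hKreal _)))
        (hz E hEfd hKE) (by exact_mod_cast Nat.succ_ne_zero C) htop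
      obtain ⟨D, hD⟩ := ENat.ne_top_iff_exists.1 h3
      choose B hB using fun i => ENat.ne_top_iff_exists.1 (h4 i)
      have h5 := hC R ⟨m, hR⟩ B D (fun i => (hB i).ge) (by rw [← hEf]; exact hD.ge)
      refine h5.trans ?_
      rw [← hD, ← Finset.prod_congr rfl fun i _ => hB i]
      have h6 : C * D * ∏ i, B i ≤ (C + 1) * D * ∏ i, B i :=
        Nat.mul_le_mul_right _ (Nat.mul_le_mul_right _ (Nat.le_succ C))
      calc ((C * D * ∏ i, B i : ℕ) : ℕ∞) ≤ (((C + 1) * D * ∏ i, B i : ℕ) : ℕ∞) := by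
            exact_mod_cast h6
        _ = _ := by push_cast; rfl
  · rw [bounded_iff]
    exact sb_mono hr hF hKE hE (bounded_iff.1 h1)
  · have hFf : FiniteDimensional ℚ F := hF
    rw [bounded_iff]
    exact abs_step (P := fun X => K₀ ≤ X → SB p S (fun g => act g) X.fixingSubgroup) hmono hstep F
      (fun ι c hc _ => bounded_iff.1 (h ι c _ (realPart_iff.2 ⟨hc, rfl⟩)))
      (fun E hE hcm hKE => bounded_iff.1 (h1 E hKE hE hcm)) hKF
  · have hFf : FiniteDimensional ℚ F := hF
    rw [bounded_iff]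
    exact rel_all (P := fun X => K₀ ≤ X → SB p S (fun g => act g) X.fixingSubgroup) hK₀ hmono hstep hd
      (fun E hE h1 h2 hKE => bounded_iff.1 (h E hE hKE (Or.inl ⟨h1, h2⟩)))
      (fun E hE h1 h2 hKE => bounded_iff.1 (h E hE hKE (Or.inr ⟨h1, h2⟩))) F hKF hFd hKF

end Pool.Agent.Results.MP_519cc8_nt.OneModuleAllFields
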