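import Pool.Agent.U10.Mu.A
import Pool.Agent.U10.Mu.C
import Pool.Agent.U10.Mu.Fam
import Pool.Agent.U120.GapH

/-!
# μ-invariants for representations of rank one

Let `k` be a number field, `p` a prime number and `k_∞` a `ℤ_p`-extension of `k`, for example the
cyclotomic one.  It is given by a continuous surjective homomorphism `a` from the Galois group of `k` onto
`ℤ_p` whose kernel is the Galois group of `k_∞`.  Let `ψ` be a character of the Galois group of `k` with values in
`F_p^×`, and `A = F_p(ψ)`.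

For a finite extension `K` of `k` of degree prime to `p` let `X` be the Galois group over `K k_∞ k(ψ)` of the
maximal abelian pro-`p` extension which is unramified and totally split above `p`, where `k(ψ)` belongs to
the kernel of `ψ`.  Let `r(K)` be the rank over `F_p[[T]]` of the module of the homomorphisms
`f : X → F_p[[T]]` with `f(σ x σ⁻¹) = ψ(σ) (1 + T) ^ a(σ) f(x)` for all `σ` in the Galois group of `K`.

In the problem let `T` be a representation of rank one over `ℤ_p` (for example `ℤ_p(i)`), and let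
`A = Hom(T/p, μ_p)`, so `A = F_p(ψ)` with `ψ` the cyclotomic character modulo `p` times the inverse of
the character of `T/p`.  By Poitou-Tate duality and Nakayama's lemma the module `H²_Iw(O_{K,S}, T)` is torsion with
`μ = 0` if and only if the fine Selmer group of `A` over `K_∞` is finite.  This is the group of the
homomorphisms `X → F_p` with `f(σ x σ⁻¹) = ψ(σ) f(x)`, and so it is finite if and only if
`r(K) = 0`, because the `ψ`-part of `X` is a finitely generated torsion module over `ℤ_p[[Γ]]`, and `r(K)`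
is the number of its factors `Λ/p^m`.

We show:

1. Let `Ω` be a Galois extension of `k`, finite or infinite, such that the degrees of the finite extensions of
   `k` in `Ω` are prime to `p`. Then `r(K) + r(K') ≤ r(K K') + r(K ∩ K')` for all finite `K`, `K'` in `Ω`. If the
   `r(K)`, `K ⊆ Ω`, are bounded then there is a smallest finite extension `K₀ ⊆ Ω` with
   `r(K) = r(K ∩ K₀)` for all `K ⊆ Ω`. It is Galois over `k` and its group embeds into `GL_c(F_p)`, `c = r(K₀)`.
2. Let `K' ⊆ K` be finite Galois extensions of `k` of degrees prime to `p`. If `r(K)` is finite then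
   `r(K) = r(K') + d` for some `d`, and if `d` is not `0` then `Gal(K/k)` has a representation over `F_p` of
   degree `d` which is not trivial on `Gal(K/K')`. Let `ℓ ≠ p` be a prime number, and let `K'` contain the
   elements of `K` which are fixed by the `ℓ ^ m`-th powers of all elements of `ℓ`-power order of `Gal(K/k)`.
   Then `r(K) = r(K')`, or `r(K) ≥ r(K') + ord(p mod ℓ ^ (m + 1))`.
3. Let `L_m` be the layers of a `ℤ_ℓ ^ s`-extension of `k`.  Then each jump `r(L_(m+1)) - r(L_m)` is `0` or at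
   least `ord(p mod ℓ ^ (m + 1))`; and one layer controls all finite extensions of `k` in the union, or
   `r(L_m) ≥ c ℓ ^ m` for infinitely many `m`, with a constant `c > 0`.

Proof.  The homomorphisms for `K` form a representation of `Gal(K/k)` over `F_p[[T]]`, and the ones for `K'`
are the elements fixed by `Gal(K/K')` (helper10's project MU, with packages of helper103 and
helper72; it works for each character with values in `F_p[[T]]^×`).  The quotient by them is torsion free, and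
`Gal(K/K')` acts on it without fixed elements.  Its kernel is the kernel of a representation over `F_p` of
the same degree.  If `d` is not zero then some `ℓ ^ m`-th power of an element of `ℓ`-power order acts
non-trivially, and a matrix over `F_p` of order `ℓ ^ (m + 1)` has at least `ord(p mod ℓ ^ (m + 1))` rows.
-/

set_option autoImplicit false

open Module

namespace Pool.Agent.Results.MP_519cc8_nt.RankOneRepresentations

open Pool.Agent.U10.Mu
open Pool.Agent.U10.Shr (ine dec)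
open Pool.Agent.U120.GapG

variable {k : Type} [Field k] [NumberField k]

/-- `f` is a continuous homomorphism from the Galois group of `K k_∞ k(ψ)` (`a.ker` and `ψ.ker` are the Galois
groups of `k_∞` and `k(ψ)`) to `F_p[[T]]` which is zero on all inertia groups and on the decomposition groups
of the places above `p`, with `f(σ x σ⁻¹) = ψ(σ) (1 + T) ^ a(σ) f(x)` for all `σ` in the Galois group of `K`. -/
def IsTwistedMap (p : ℕ) [Fact p.Prime]
    (a : (AlgebraicClosure k ≃ₐ[k] AlgebraicClosure k) →* Multiplicative ℤ_[p])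
    (ψ : (AlgebraicClosure k ≃ₐ[k] AlgebraicClosure k) →* (ZMod p)ˣ)
    (K : IntermediateField k (AlgebraicClosure k))
    (f : ↥(K.fixingSubgroup ⊓ (a.ker ⊓ ψ.ker)) → PowerSeries (ZMod p)) : Prop :=
  (∀ x y, f (x * y) = f x + f y) ∧
  (∀ n, IsLocallyConstant fun x => PowerSeries.coeff n (f x)) ∧
  (∀ V : ValuationSubring (AlgebraicClosure k), ∀ x : ↥(K.fixingSubgroup ⊓ (a.ker ⊓ ψ.ker)),
    x.1 ∈ ine k V → f x = 0) ∧
  (∀ V : ValuationSubring (AlgebraicClosure k), (p : AlgebraicClosure k) ∈ V.nonunits →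
    ∀ x : ↥(K.fixingSubgroup ⊓ (a.ker ⊓ ψ.ker)), x.1 ∈ dec k V → f x = 0) ∧
  ∀ σ ∈ K.fixingSubgroup, ∀ x y : ↥(K.fixingSubgroup ⊓ (a.ker ⊓ ψ.ker)),
    y.1 = σ * x.1 * σ⁻¹ →
      f y = opw p (a σ).toAdd * PowerSeries.C (ψ σ : ZMod p) * f x

variable {p : ℕ} [Fact p.Prime]
  {a : (AlgebraicClosure k ≃ₐ[k] AlgebraicClosure k) →* Multiplicative ℤ_[p]}
  {ψ : (AlgebraicClosure k ≃ₐ[k] AlgebraicClosure k) →* (ZMod p)ˣ}
  {K : IntermediateField k (AlgebraicClosure k)}

omit [NumberField k] in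
theorem isTwistedMap_iff (f : ↥(K.fixingSubgroup ⊓ (a.ker ⊓ ψ.ker)) → PowerSeries (ZMod p)) :
    IsTwistedMap p a ψ K f ↔ f ∈ EE2 p a ψ (famD k p) K.fixingSubgroup := by
  constructor
  · rintro ⟨h1, h2, h3, h5, h4⟩
    refine ⟨h1, h2, ?_, h4⟩
    rintro D (⟨V, rfl⟩ | ⟨V, hV, rfl⟩) x hx
    · exact h3 V x hx
    · exact h5 V hV x hx
  · rintro ⟨h1, h2, h3, h4⟩
    exact ⟨h1, h2, fun V x hx => h3 _ (Or.inl ⟨V, rfl⟩) x hx,
      fun V hV x hx => h3 _ (Or.inr ⟨V, hV, rfl⟩) x hx, h4⟩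

/-- The module of these homomorphisms over `F_p[[T]]`. -/
def twistedMaps (p : ℕ) [Fact p.Prime]
    (a : (AlgebraicClosure k ≃ₐ[k] AlgebraicClosure k) →* Multiplicative ℤ_[p])
    (ψ : (AlgebraicClosure k ≃ₐ[k] AlgebraicClosure k) →* (ZMod p)ˣ)
    (K : IntermediateField k (AlgebraicClosure k)) :
    Submodule (PowerSeries (ZMod p))
      (↥(K.fixingSubgroup ⊓ (a.ker ⊓ ψ.ker)) → PowerSeries (ZMod p)) where
  carrier := {f | IsTwistedMap p a ψ K f}
  add_mem' := fun {f g} hf hg => (isTwistedMap_iff _).2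
    (add_mem ((isTwistedMap_iff f).1 hf) ((isTwistedMap_iff g).1 hg))
  zero_mem' := (isTwistedMap_iff _).2 (zero_mem _)
  smul_mem' := fun c {f} hf => (isTwistedMap_iff _).2
    (Submodule.smul_mem _ c ((isTwistedMap_iff f).1 hf))

/-- The rank `r(K)` of this module over `F_p[[T]]`. -/
noncomputable def rk (p : ℕ) [Fact p.Prime]
    (a : (AlgebraicClosure k ≃ₐ[k] AlgebraicClosure k) →* Multiplicative ℤ_[p])
    (ψ : (AlgebraicClosure k ≃ₐ[k] AlgebraicClosure k) →* (ZMod p)ˣ)
    (K : IntermediateField k (AlgebraicClosure k)) : Cardinal :=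
  Module.rank (PowerSeries (ZMod p)) (twistedMaps p a ψ K)

omit [NumberField k] in
theorem rk_eq : rk p a ψ = rkT p a ψ (famD k p) := by
  funext K
  have h1 : twistedMaps p a ψ K = EE2 p a ψ (famD k p) K.fixingSubgroup :=
    Submodule.ext fun f => isTwistedMap_iff f
  unfold rk rkT
  rw [h1]

/-- The field `K₁` controls the ranks over the finite extensions of `k` in `Ω`. -/
def Controls (p : ℕ) [Fact p.Prime]
    (a : (AlgebraicClosure k ≃ₐ[k] AlgebraicClosure k) →* Multiplicative ℤ_[p])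
    (ψ : (AlgebraicClosure k ≃ₐ[k] AlgebraicClosure k) →* (ZMod p)ˣ)
    (Ω K₁ : IntermediateField k (AlgebraicClosure k)) : Prop :=
  ∀ K ≤ Ω, FiniteDimensional k K → rk p a ψ K = rk p a ψ (K ⊓ K₁)

/-- `K'` contains the elements of `K` which are fixed by the `ℓ ^ m`-th powers of all elements of `ℓ`-power
order of the Galois group of `K` over `k`. -/
def PowerFixed (ℓ m : ℕ) (K' K : IntermediateField k (AlgebraicClosure k)) : Prop :=
  ∀ x : K, (∀ σ : K ≃ₐ[k] K, (∃ j : ℕ, σ ^ ℓ ^ j = 1) → (σ ^ ℓ ^ m) x = x) →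
    (x : AlgebraicClosure k) ∈ K'

/-- The `L m` are the layers of a `ℤ_ℓ ^ s`-extension of `k`: an increasing sequence of finite Galois
extensions with Galois groups isomorphic to `(ℤ/ℓ ^ m) ^ s`. -/
def IsLayers (ℓ s : ℕ) (L : ℕ → IntermediateField k (AlgebraicClosure k)) : Prop :=
  Monotone L ∧ ∀ m, FiniteDimensional k (L m) ∧ IsGalois k (L m) ∧
    Nonempty ((L m ≃ₐ[k] L m) ≃* Multiplicative (Fin s → ZMod (ℓ ^ m)))

theorem result (p : ℕ) [Fact p.Prime]
    (a : (AlgebraicClosure k ≃ₐ[k] AlgebraicClosure k) →* Multiplicative ℤ_[p])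
    (_ha : Continuous a) (_hs : Function.Surjective a)
    (ψ : (AlgebraicClosure k ≃ₐ[k] AlgebraicClosure k) →* (ZMod p)ˣ)
    (_hψ : IsOpen (ψ.ker : Set (AlgebraicClosure k ≃ₐ[k] AlgebraicClosure k))) :
    (∀ Ω : IntermediateField k (AlgebraicClosure k), Normal k Ω →
      (∀ K ≤ Ω, FiniteDimensional k K → ¬ p ∣ finrank k K) →
      (∀ K K' : IntermediateField k (AlgebraicClosure k), K ≤ Ω → K' ≤ Ω →
        FiniteDimensional k K → FiniteDimensional k K' →
        rk p a ψ K + rk p a ψ K' ≤ rk p a ψ (K ⊔ K') + rk p a ψ (K ⊓ K')) ∧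
      ((∃ m : ℕ, ∀ K ≤ Ω, FiniteDimensional k K → rk p a ψ K ≤ m) →
        ∃ K₀ ≤ Ω, FiniteDimensional k K₀ ∧ IsGalois k K₀ ∧ Controls p a ψ Ω K₀ ∧
          (∀ K₁ ≤ Ω, FiniteDimensional k K₁ → Controls p a ψ Ω K₁ → K₀ ≤ K₁) ∧
          ∃ φ : (K₀ ≃ₐ[k] K₀) →* GL (Fin (rk p a ψ K₀).toNat) (ZMod p),
            Function.Injective φ)) ∧
    (∀ K' K : IntermediateField k (AlgebraicClosure k), K' ≤ K →
      FiniteDimensional k K → IsGalois k K → IsGalois k K' → ¬ p ∣ finrank k K →
      (rk p a ψ K < Cardinal.aleph0 →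
        ∃ (d : ℕ) (φ : (K ≃ₐ[k] K) →* GL (Fin d) (ZMod p)),
          rk p a ψ K = rk p a ψ K' + (d : Cardinal) ∧
          (d ≠ 0 → ∃ σ : K ≃ₐ[k] K,
            (∀ x : K, (x : AlgebraicClosure k) ∈ K' → σ x = x) ∧ φ σ ≠ 1)) ∧
      ∀ ℓ : ℕ, ℓ.Prime → ℓ ≠ p → ∀ m : ℕ, PowerFixed ℓ m K' K → rk p a ψ K = rk p a ψ K' ∨
        rk p a ψ K' + (orderOf (p : ZMod (ℓ ^ (m + 1))) : ℕ) ≤ rk p a ψ K) ∧
    ∀ ℓ : ℕ, ℓ.Prime → ℓ ≠ p → ∀ (s : ℕ) (L : ℕ → IntermediateField k (AlgebraicClosure k)),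
      IsLayers ℓ s L →
      (∀ m, rk p a ψ (L (m + 1)) = rk p a ψ (L m) ∨
        rk p a ψ (L m) + (orderOf (p : ZMod (ℓ ^ (m + 1))) : ℕ) ≤ rk p a ψ (L (m + 1))) ∧
      ((∃ m₀, rk p a ψ (L m₀) < Cardinal.aleph0 ∧ Controls p a ψ (⨆ m, L m) (L m₀)) ∨
      ∃ D : ℕ, ∀ M, ∃ m ≥ M, ((ℓ ^ m : ℕ) : Cardinal) ≤ D * rk p a ψ (L m)) := by
  unfold Controls
  rw [rk_eq]
  refine ⟨fun Ω hn hd => Pool.Agent.U120.GapH.ctlT p Pool.Agent.U10.Mu.A.proof
    Pool.Agent.U10.Mu.C.proof a ψ (stab_famD k p) Ω hn hd, fun K' K hle hf hg hg' hd => ?_,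
    fun ℓ hℓ hne s L hL => ?_⟩
  · constructor
    · obtain ⟨q, hq, hqp⟩ := Nat.exists_infinite_primes (p + 1)
      exact ((mainT p Pool.Agent.U10.Mu.A.proof Pool.Agent.U10.Mu.C.proof a ψ (stab_famD k p)
        q hqp (by omega)).1 K' K hle hf hg hg' hd).1
    · intro ℓ hℓ hne
      exact ((mainT p Pool.Agent.U10.Mu.A.proof Pool.Agent.U10.Mu.C.proof a ψ (stab_famD k p)
        ℓ hℓ hne).1 K' K hle hf hg hg' hd).2
  · exact (mainT p Pool.Agent.U10.Mu.A.proof Pool.Agent.U10.Mu.C.proof a ψ (stab_famD k p)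
      ℓ hℓ hne).2.2 s L hL.1 hL.2

end Pool.Agent.Results.MP_519cc8_nt.RankOneRepresentations
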